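import Mathlib

/-! # The value of the dilogarithm at one half -/

set_option autoImplicit false

open Filter Topology Set

namespace Pool.Agent.TH89.DL

/-- the dilogarithm on `[0, 1]` -/
noncomputable def li (x : ℝ) : ℝ := ∑' s : ℕ, x ^ (s + 1) / ((s : ℝ) + 1) ^ 2

lemma summable_inv_sq : Summable fun s : ℕ => (1 : ℝ) / ((s : ℝ) + 1) ^ 2 := by
  have h := (summable_nat_add_iff (f := fun n : ℕ => (1 : ℝ) / (n : ℝ) ^ 2) 1).2
    hasSum_zeta_two.summable
  simpa using h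

lemma li_zero : li 0 = 0 := by
  unfold li
  simp

lemma li_one : li 1 = Real.pi ^ 2 / 6 := by
  unfold li
  have h := (hasSum_nat_add_iff' (f := fun n : ℕ => (1 : ℝ) / (n : ℝ) ^ 2) 1).2 hasSum_zeta_two
  have h2 := h.tsum_eq
  simp only [Finset.range_one, Finset.sum_singleton, Nat.cast_zero, ne_eq, OfNat.ofNat_ne_zero,
    not_false_eq_true, zero_pow, div_zero, sub_zero, Nat.cast_add, Nat.cast_one] at h2
  simpa using h2

lemma cont_li : ContinuousOn li (Icc 0 1) := by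
  unfold li
  refine continuousOn_tsum (u := fun s : ℕ => (1 : ℝ) / ((s : ℝ) + 1) ^ 2) ?_ summable_inv_sq ?_
  · intro s
    fun_prop
  · intro s x hx
    rw [Real.norm_eq_abs, abs_div, abs_pow, abs_of_nonneg hx.1,
      abs_of_pos (by positivity : (0 : ℝ) < ((s : ℝ) + 1) ^ 2)]
    have : x ^ (s + 1) ≤ 1 := pow_le_one₀ hx.1 hx.2
    gcongr

lemma deriv_li {x : ℝ} (h0 : 0 < x) (h1 : x < 1) : HasDerivAt li (-Real.log (1 - x) / x) x := by
  obtain ⟨r, hr1, hr2⟩ := exists_between h1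
  have hr0 : 0 < r := h0.trans hr1
  have h : HasDerivAt (fun z : ℝ => ∑' s : ℕ, z ^ (s + 1) / ((s : ℝ) + 1) ^ 2)
      (∑' s : ℕ, x ^ s / ((s : ℝ) + 1)) x := by
    refine hasDerivAt_tsum_of_isPreconnected (u := fun s : ℕ => r ^ s) (t := Ioo 0 r) (y₀ := x)
      (g' := fun (s : ℕ) (y : ℝ) => y ^ s / ((s : ℝ) + 1))
      (summable_geometric_of_lt_one hr0.le hr2) isOpen_Ioo isPreconnected_Ioo ?_ ?_ ⟨h0, hr1⟩ ?_
      ⟨h0, hr1⟩
    · intro s y _
      have h2 := (hasDerivAt_pow (s + 1) y).div_const (((s : ℝ) + 1) ^ 2)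
      convert! h2 using 1
      have : ((s : ℝ) + 1) ≠ 0 := by positivity
      simp only [Nat.cast_add, Nat.cast_one, Nat.add_sub_cancel]
      field_simp
    · intro s y hy
      rw [Real.norm_eq_abs, abs_div, abs_pow, abs_of_pos hy.1,
        abs_of_pos (by positivity : (0 : ℝ) < (s : ℝ) + 1)]
      have h3 : y ^ s ≤ r ^ s := pow_le_pow_left₀ hy.1.le hy.2.le s
      have h4 : (0 : ℝ) ≤ r ^ s := by positivity
      calc y ^ s / ((s : ℝ) + 1) ≤ r ^ s / ((s : ℝ) + 1) := by gcongr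
        _ ≤ r ^ s := div_le_self h4 (by linarith [Nat.cast_nonneg (α := ℝ) s])
    · refine Summable.of_nonneg_of_le (fun s => by positivity) (fun s => ?_) summable_inv_sq
      have : x ^ (s + 1) ≤ 1 := pow_le_one₀ h0.le h1.le
      gcongr
  have h5 := (Real.hasSum_pow_div_log_of_abs_lt_one (x := x) (by rw [abs_of_pos h0]; exact h1))
  have h6 := h5.div_const x
  have h7 : (fun s : ℕ => x ^ (s + 1) / ((s : ℝ) + 1) / x) = fun s : ℕ => x ^ s / ((s : ℝ) + 1) := by
    funext s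
    have : ((s : ℝ) + 1) ≠ 0 := by positivity
    field_simp
    ring
  rw [h7] at h6
  rw [h6.tsum_eq] at h
  exact h

/-- the function which is constant on the open unit interval -/
noncomputable def g (x : ℝ) : ℝ := li x + li (1 - x) + Real.log x * Real.log (1 - x)

lemma deriv_g {x : ℝ} (h0 : 0 < x) (h1 : x < 1) : HasDerivAt g 0 x := by
  have h2 : HasDerivAt (fun y : ℝ => 1 - y) (-1) x := by
    simpa using (hasDerivAt_id x).const_sub 1
  have h3 : HasDerivAt (fun y => li (1 - y)) ((-Real.log (1 - (1 - x)) / (1 - x)) * (-1)) x :=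
    (deriv_li (x := 1 - x) (by linarith) (by linarith)).comp x h2
  have h4 : HasDerivAt (fun y => Real.log (1 - y)) ((-1) / (1 - x)) x := h2.log (by linarith)
  have h5 := (Real.hasDerivAt_log h0.ne').mul h4
  have h6 := ((deriv_li h0 h1).add h3).add h5
  have hx : x ≠ 0 := h0.ne'
  have hx1 : 1 - x ≠ 0 := by linarith
  convert! h6 using 1
  have : 1 - (1 - x) = x := by ring
  rw [this]
  field_simp
  ring

lemma g_const {x : ℝ} (h0 : 0 < x) (h1 : x < 1) : g x = g (1 / 2) := by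
  refine isOpen_Ioo.is_const_of_deriv_eq_zero (s := Ioo (0 : ℝ) 1) isPreconnected_Ioo ?_ ?_
    ⟨h0, h1⟩ ⟨by norm_num, by norm_num⟩
  · intro y hy
    exact (deriv_g hy.1 hy.2).differentiableAt.differentiableWithinAt
  · intro y hy
    exact (deriv_g hy.1 hy.2).deriv

lemma lim_log : Tendsto (fun x : ℝ => Real.log x * Real.log (1 - x)) (𝓝[>] 0) (𝓝 0) := by
  have h1 : Tendsto (fun x : ℝ => Real.log x * x) (𝓝[>] 0) (𝓝 0) := by
    have := tendsto_log_mul_rpow_nhdsGT_zero (r := 1) one_pos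
    simpa using this
  have h2 : Tendsto (fun x : ℝ => Real.log (1 - x) / x) (𝓝[>] 0) (𝓝 (-1)) := by
    have h3 : HasDerivAt (fun y : ℝ => Real.log (1 - y)) (-1) 0 := by
      have h4 : HasDerivAt (fun y : ℝ => 1 - y) (-1) 0 := by
        simpa using (hasDerivAt_id (0 : ℝ)).const_sub 1
      have := h4.log (by norm_num)
      simpa using this
    rw [hasDerivAt_iff_tendsto_slope] at h3
    have h5 := h3.mono_left (nhdsWithin_mono 0 (fun x (hx : 0 < x) => hx.ne') :
      𝓝[>] (0 : ℝ) ≤ 𝓝[≠] 0)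
    refine h5.congr fun x => ?_
    rw [slope_def_field]
    simp
  have h6 := h1.mul h2
  rw [zero_mul] at h6
  refine h6.congr' ?_
  filter_upwards [self_mem_nhdsWithin] with x hx
  have : x ≠ 0 := (show (0 : ℝ) < x from hx).ne'
  field_simp

lemma lim_g : Tendsto g (𝓝[>] 0) (𝓝 (Real.pi ^ 2 / 6)) := by
  have hsub : ∀ᶠ x : ℝ in 𝓝[>] 0, x ∈ Icc (0 : ℝ) 1 := by
    filter_upwards [Ioo_mem_nhdsGT (show (0 : ℝ) < 1 from one_pos)] with x hx
    exact ⟨hx.1.le, hx.2.le⟩
  have h1 : Tendsto li (𝓝[>] 0) (𝓝 0) := by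
    have h := cont_li 0 ⟨le_rfl, zero_le_one⟩
    rw [ContinuousWithinAt, li_zero] at h
    exact h.comp (tendsto_nhdsWithin_iff.2 ⟨tendsto_id.mono_left nhdsWithin_le_nhds, hsub⟩)
  have h2 : Tendsto (fun x => li (1 - x)) (𝓝[>] 0) (𝓝 (Real.pi ^ 2 / 6)) := by
    have h := cont_li 1 ⟨zero_le_one, le_rfl⟩
    rw [ContinuousWithinAt, li_one] at h
    refine h.comp (tendsto_nhdsWithin_iff.2 ⟨?_, ?_⟩)
    · have : Tendsto (fun x : ℝ => 1 - x) (𝓝 0) (𝓝 (1 - 0)) := by
        exact (continuous_const.sub continuous_id).tendsto 0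
      rw [sub_zero] at this
      exact this.mono_left nhdsWithin_le_nhds
    · filter_upwards [hsub] with x hx
      exact ⟨by linarith [hx.2], by linarith [hx.1]⟩
  have h3 := (h1.add h2).add lim_log
  rw [zero_add, add_zero] at h3
  exact h3

theorem dilog_half :
    ∑' s : ℕ, (1 / 2 : ℝ) ^ (s + 1) / ((s : ℝ) + 1) ^ 2 =
      Real.pi ^ 2 / 12 - Real.log 2 ^ 2 / 2 := by
  have h1 : Tendsto g (𝓝[>] 0) (𝓝 (g (1 / 2))) := by
    refine tendsto_const_nhds.congr' ?_
    filter_upwards [Ioo_mem_nhdsGT (show (0 : ℝ) < 1 from one_pos)] with x hx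
    exact (g_const hx.1 hx.2).symm
  have h2 := tendsto_nhds_unique h1 lim_g
  unfold g at h2
  have h3 : (1 : ℝ) - 1 / 2 = 1 / 2 := by norm_num
  have h4 : Real.log (1 / 2) = - Real.log 2 := by
    rw [one_div, Real.log_inv]
  rw [h3, h4] at h2
  change li (1 / 2) = _
  linarith [h2]

end Pool.Agent.TH89.DL
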